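import Pool.Agent.P.MP_09d285_al.Main

/-! A group that is Golod-Shafarevich in characteristic zero all of whose finite-index subgroups
have first Betti number at most two. -/

namespace Pool.Agent.Results.MP_09d285_al.BoundedVirtualBetti

open scoped TensorProduct

/-- The degree `D₀(f)` of an element of the free group on `d` letters: the supremum of the `n ≥ 1`
with `f ∈ γ_n F`, where `γ_1 F = F`, `γ_{n+1} F = [γ_n F, F]` is the lower central series
(Mathlib's `lowerCentralSeries ⊤ k` is `γ_{k+1}`).  So `D₀(f) = n` exactly when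
`f ∈ γ_n F \ γ_{n+1} F`, and `D₀(1) = ∞`. -/
noncomputable def D0 {d : ℕ} (f : FreeGroup (Fin d)) : ℕ∞ :=
  ⨆ (k : ℕ) (_ : f ∈ (⊤ : Subgroup (FreeGroup (Fin d))).lowerCentralSeries k), ((k + 1 : ℕ) : ℕ∞)

/-- `τ ^ n` for an extended natural number `n`, with `τ ^ ∞ = 0`. -/
noncomputable def epow (τ : ℝ) (n : ℕ∞) : ℝ :=
  if n = ⊤ then 0 else τ ^ n.toNat

/-- `G` is Golod-Shafarevich in characteristic zero: it has a presentation `⟨X | R⟩` with
`X` finite, `|X| = d`, such that for some `τ ∈ (0,1)` the series `∑_{r ∈ R} τ ^ D₀(r)` converges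
and `1 - d τ + ∑_{r ∈ R} τ ^ D₀(r) < 0`. -/
def IsGSCharZero (G : Type) [Group G] : Prop :=
  ∃ (d : ℕ) (R : Set (FreeGroup (Fin d))) (τ : ℝ),
    Nonempty (G ≃* PresentedGroup R) ∧ 0 < τ ∧ τ < 1 ∧
    Summable (fun r : R => epow τ (D0 r.1)) ∧
    1 - (d : ℝ) * τ + ∑' r : R, epow τ (D0 r.1) < 0

/-- The first Betti number `dim_ℚ (ℚ ⊗ H/[H,H])`, as a cardinal. -/
noncomputable def b1 (H : Type) [Group H] : Cardinal :=
  Module.rank ℚ (ℚ ⊗[ℤ] Additive (Abelianization H))

theorem result :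
    ∃ (G : Type) (_ : Group G), IsGSCharZero G ∧
      ∀ H : Subgroup G, H.FiniteIndex → b1 H ≤ 2 := by
  have hw0 : ∀ r : FreeGroup (Fin 2), 0 ≤ epow (3 / 4) (D0 r) := by
    intro r
    unfold epow
    split_ifs
    · exact le_rfl
    · positivity
  have hw : ∀ (r : FreeGroup (Fin 2)) (n : ℕ),
      r ∈ (⊤ : Subgroup (FreeGroup (Fin 2))).lowerCentralSeries n →
        epow (3 / 4) (D0 r) ≤ (3 / 4 : ℝ) ^ n := by
    intro r n hr
    unfold epow
    split_ifs with h
    · positivity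
    · have h1 : ((n + 1 : ℕ) : ℕ∞) ≤ D0 r :=
        le_iSup₂_of_le (f := fun (k : ℕ)
          (_ : r ∈ (⊤ : Subgroup (FreeGroup (Fin 2))).lowerCentralSeries k) =>
            ((k + 1 : ℕ) : ℕ∞)) n hr le_rfl
      have h2 : n + 1 ≤ (D0 r).toNat := by
        have := ENat.toNat_le_toNat h1 h
        rwa [ENat.toNat_coe] at this
      exact pow_le_pow_of_le_one (by norm_num) (by norm_num) (by omega)
  obtain ⟨R, h1, h2, h3⟩ := Pool.Agent.P.MP_09d285_al.exists_relators 2 (3 / 4) (1 / 4)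
    (by norm_num) (by norm_num) (by norm_num) (fun r => epow (3 / 4) (D0 r)) hw0 hw
  refine ⟨PresentedGroup R, inferInstance,
    ⟨2, R, 3 / 4, ⟨MulEquiv.refl _⟩, by norm_num, by norm_num, h1, ?_⟩, fun H hH => ?_⟩
  · push_cast
    linarith
  · exact_mod_cast h3 H hH

end Pool.Agent.Results.MP_09d285_al.BoundedVirtualBetti
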