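import Pool.Agent.P.MP_09d285_al.FP.Main

/-! A finitely presented group that is Golod-Shafarevich in characteristic zero, through a finite
presentation on `d` generators, all of whose finite-index subgroups have first Betti number at
most `d`. -/

namespace Pool.Agent.Results.MP_09d285_al.FinitelyPresented

open scoped TensorProduct

/-- The degree `D₀(f)` of an element of the free group on `d` letters: the supremum of the `n ≥ 1`
with `f ∈ γ_n F`, where `γ_1 F = F`, `γ_{n+1} F = [γ_n F, F]` is the lower central series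
(Mathlib's `lowerCentralSeries ⊤ k` is `γ_{k+1}`).  So `D₀(f) = n` exactly when
`f ∈ γ_n F \ γ_{n+1} F`, and `D₀(1) = ∞`. -/
noncomputable def D0 {d : ℕ} (f : FreeGroup (Fin d)) : ℕ∞ :=
  ⨆ (k : ℕ) (_ : f ∈ (⊤ : Subgroup (FreeGroup (Fin d))).lowerCentralSeries k), ((k + 1 : ℕ) : ℕ∞)

/-- `τ ^ n` for an extended natural number `n`, with `τ ^ ∞ = 0`. -/
noncomputable def epow (τ : ℝ) (n : ℕ∞) : ℝ :=
  if n = ⊤ then 0 else τ ^ n.toNat

/-- The first Betti number `dim_ℚ (ℚ ⊗ H/[H,H])`, as a cardinal. -/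
noncomputable def b1 (H : Type) [Group H] : Cardinal :=
  Module.rank ℚ (ℚ ⊗[ℤ] Additive (Abelianization H))

theorem result :
    ∃ (d : ℕ) (R : Finset (FreeGroup (Fin d))),
      (∃ τ : ℝ, 0 < τ ∧ τ < 1 ∧ 1 - (d : ℝ) * τ + ∑ r ∈ R, epow τ (D0 r) < 0) ∧
      ∀ H : Subgroup (PresentedGroup (R : Set (FreeGroup (Fin d)))), H.FiniteIndex → b1 H ≤ d := by
  obtain ⟨d, hd, R, h1, h2⟩ :=
    Pool.Agent.P.MP_09d285_al.FP.exists_presentation 200 (1 / (7 * 200 ^ 3))
  refine ⟨d, R, ⟨1 / (7 * 200 ^ 3), by norm_num, by norm_num, ?_⟩, h2⟩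
  have h := h1 (fun r => epow (1 / (7 * 200 ^ 3)) (D0 r))
    (fun r => by
      unfold epow
      split_ifs
      · exact le_rfl
      · positivity)
    (fun r n hr => by
      unfold epow
      split_ifs with h
      · positivity
      · have h1 : ((n + 1 : ℕ) : ℕ∞) ≤ D0 r :=
          le_iSup₂_of_le (f := fun (k : ℕ)
            (_ : r ∈ (⊤ : Subgroup (FreeGroup (Fin d))).lowerCentralSeries k) =>
              ((k + 1 : ℕ) : ℕ∞)) n hr le_rfl
        have h2 : n + 1 ≤ (D0 r).toNat := by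
          have := ENat.toNat_le_toNat h1 h
          rwa [ENat.toNat_natCast] at this
        exact pow_le_pow_of_le_one (by norm_num) (by norm_num) h2)
  have hd' : (d : ℝ) = 15 * 200 ^ 3 := by rw [hd]; norm_num
  rw [hd']
  push_cast at h
  norm_num at h ⊢
  linarith

end Pool.Agent.Results.MP_09d285_al.FinitelyPresented
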